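import Pool.Agent.Lib.MP_a60258_s6.Iface

/-!
# Module EVT: evaluation of a table
-/

open Finset

namespace A602.S6.H50

/-! ### Lists -/

theorem getR_eq {β : Type} (dflt : β) (l : List β) (n : ℕ) : getR dflt l n = l.getD n dflt := by
  induction l generalizing n with
  | nil => rfl
  | cons a l ih =>
    cases n with
    | zero => rfl
    | succ n => exact (ih n).trans (by simp)

theorem cht (y n : ℕ) (hy : y ≤ 11) : (getR [] CHT y).getD n 0 = y.choose n := by
  rcases lt_or_ge n 12 with hn | hn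
  · interval_cases y <;> interval_cases n <;> rfl
  · rw [Nat.choose_eq_zero_of_lt (by omega)]
    interval_cases y <;>
    exact List.getD_eq_default _ _ (le_trans (by decide) hn)

theorem ch_eq (y n : ℕ) (hy : y ≤ 11) : ch y n = y.choose n := by
  rw [ch, getR_eq 0 _ n, cht y n hy]

theorem sumT_nil (f : ℕ → ℕ) : sumT [] f = 0 := rfl

theorem sumT_cons (q : ℕ × ℕ) (l : List (ℕ × ℕ)) (f : ℕ → ℕ) :
    sumT (q :: l) f = q.1 * f q.2 + sumT l f := rfl

/-- the inner recursion of `tl` -/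
def inn (i2 y3 c : ℕ) (L : List ℕ) : ℕ → ℕ → List (ℕ × ℕ) → List (ℕ × ℕ) :=
  List.rec (motive := fun _ => ℕ → ℕ → List (ℕ × ℕ) → List (ℕ × ℕ)) (fun _ _ acc => acc)
        (fun c2 _ ih2 a s acc => frc (ch y3 a) fun c3 =>
          cond (Nat.beq c3 0)
            (Nat.rec (motive := fun _ => List (ℕ × ℕ)) acc (fun a' _ => ih2 a' (Nat.add s i2) acc) a)
            (List.cons (Prod.mk (Nat.mul c (Nat.mul c2 c3)) s)
              (Nat.rec (motive := fun _ => List (ℕ × ℕ)) acc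
                (fun a' _ => ih2 a' (Nat.add s i2) acc) a))) L

/-- the outer recursion of `tl` -/
def out (i1 i2 y2 y3 : ℕ) (L : List ℕ) : ℕ → ℕ → List (ℕ × ℕ) → List (ℕ × ℕ) :=
  List.rec (motive := fun _ => ℕ → ℕ → List (ℕ × ℕ) → List (ℕ × ℕ)) (fun _ _ acc => acc)
    (fun c _ ih a s acc => inn i2 y3 c (getR [] CHT y2) a s
        (Nat.rec (motive := fun _ => List (ℕ × ℕ)) acc (fun a' _ => ih a' (Nat.add s i1) acc) a)) L

theorem tl_eq (i1 i2 y1 y2 y3 a : ℕ) :
    tl i1 i2 y1 y2 y3 a = out i1 i2 y2 y3 (getR [] CHT y1) a 0 [] := rfl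

theorem frc_eq {β : Type} (n : ℕ) (f : ℕ → β) : frc n f = f n := by cases n <;> rfl

theorem sumT_inn (i2 y3 c : ℕ) (L : List ℕ) (a s : ℕ) (acc : List (ℕ × ℕ)) (f : ℕ → ℕ) :
    sumT (inn i2 y3 c L a s acc) f
      = (∑ n ∈ range (a + 1), c * (L.getD n 0 * ch y3 (a - n)) * f (s + n * i2)) + sumT acc f := by
  induction L generalizing a s with
  | nil =>
    change sumT acc f = _
    simp
  | cons c2 L ih =>
    have h : inn i2 y3 c (c2 :: L) a s acc = frc (ch y3 a) fun c3 =>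
          cond (Nat.beq c3 0)
            (Nat.rec (motive := fun _ => List (ℕ × ℕ)) acc
              (fun a' _ => inn i2 y3 c L a' (Nat.add s i2) acc) a)
            (List.cons (Prod.mk (Nat.mul c (Nat.mul c2 c3)) s)
              (Nat.rec (motive := fun _ => List (ℕ × ℕ)) acc
                (fun a' _ => inn i2 y3 c L a' (Nat.add s i2) acc) a)) := rfl
    have h0 : sumT (inn i2 y3 c (c2 :: L) a s acc) f = c * (c2 * ch y3 a) * f s
        + sumT (Nat.rec (motive := fun _ => List (ℕ × ℕ)) acc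
            (fun a' _ => inn i2 y3 c L a' (Nat.add s i2) acc) a) f := by
      rw [h, frc_eq]
      rcases Nat.eq_zero_or_pos (ch y3 a) with h1 | h1
      · rw [h1]
        simp
      · have h2 : Nat.beq (ch y3 a) 0 = false := by
          rw [Bool.eq_false_iff]
          intro h3
          exact h1.ne' (Nat.eq_of_beq_eq_true h3)
        rw [h2, cond_false, sumT_cons]
        rfl
    rw [h0]
    cases a with
    | zero => simp
    | succ a =>
      change _ + sumT (inn i2 y3 c L a (s + i2) acc) f = _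
      rw [ih, sum_range_succ' _ (a + 1), ← add_assoc]
      congr 1
      rw [add_comm]
      congr 1
      · refine sum_congr rfl fun n _ => ?_
        rw [List.getD_cons_succ, Nat.add_sub_add_right, show s + i2 + n * i2 = s + (n + 1) * i2 by ring]
      · simp

theorem sumT_out (i1 i2 y2 y3 : ℕ) (L : List ℕ) (a s : ℕ) (acc : List (ℕ × ℕ)) (f : ℕ → ℕ) :
    sumT (out i1 i2 y2 y3 L a s acc) f
      = (∑ m ∈ range (a + 1), ∑ n ∈ range (a - m + 1),
          L.getD m 0 * ((getR [] CHT y2).getD n 0 * ch y3 (a - m - n)) * f (s + m * i1 + n * i2))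
        + sumT acc f := by
  induction L generalizing a s with
  | nil =>
    change sumT acc f = _
    simp
  | cons c L ih =>
    have h : out i1 i2 y2 y3 (c :: L) a s acc = inn i2 y3 c (getR [] CHT y2) a s
        (Nat.rec (motive := fun _ => List (ℕ × ℕ)) acc
          (fun a' _ => out i1 i2 y2 y3 L a' (Nat.add s i1) acc) a) := rfl
    rw [h, sumT_inn]
    cases a with
    | zero => simp
    | succ a =>
      change _ + sumT (out i1 i2 y2 y3 L a (s + i1) acc) f = _
      have e1 : (∑ m ∈ range (a + 1), ∑ n ∈ range (a - m + 1),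
          L.getD m 0 * ((getR [] CHT y2).getD n 0 * ch y3 (a - m - n))
            * f (s + i1 + m * i1 + n * i2))
          = ∑ m ∈ range (a + 1), ∑ n ∈ range (a + 1 - (m + 1) + 1),
            (c :: L).getD (m + 1) 0 * ((getR [] CHT y2).getD n 0 * ch y3 (a + 1 - (m + 1) - n))
            * f (s + (m + 1) * i1 + n * i2) := by
        refine sum_congr rfl fun m _ => ?_
        rw [Nat.add_sub_add_right]
        refine sum_congr rfl fun n _ => ?_
        rw [List.getD_cons_succ, show s + i1 + m * i1 = s + (m + 1) * i1 by ring]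
      have e2 : (∑ n ∈ range (a + 1 + 1), c * ((getR [] CHT y2).getD n 0 * ch y3 (a + 1 - n))
            * f (s + n * i2))
          = ∑ n ∈ range (a + 1 - 0 + 1),
            (c :: L).getD 0 0 * ((getR [] CHT y2).getD n 0 * ch y3 (a + 1 - 0 - n))
            * f (s + 0 * i1 + n * i2) := by
        simp only [Nat.sub_zero, List.getD_cons_zero, zero_mul, add_zero]
      rw [ih, e1, e2, sum_range_succ' _ (a + 1)]
      ring

/-! ### Sums over compositions -/

theorem sum_fin3 (a : ℕ) (F : (Fin 3 → ℕ) → ℕ) :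
    ∑ x ∈ piAntidiag (univ : Finset (Fin 3)) a, F x
      = ∑ m ∈ range (a + 1), ∑ n ∈ range (a - m + 1), F ![m, n, a - m - n] := by
  rw [sum_sigma']
  refine sum_bij' (fun x _ => ⟨x 0, x 1⟩) (fun p _ => ![p.1, p.2, a - p.1 - p.2]) ?_ ?_ ?_ ?_ ?_
  · intro x hx
    rw [mem_piAntidiag] at hx
    have h := hx.1
    rw [Fin.sum_univ_three] at h
    simp only [mem_sigma, mem_range]
    omega
  · intro p hp
    simp only [mem_sigma, mem_range] at hp
    rw [mem_piAntidiag]
    refine ⟨?_, fun _ _ => mem_univ _⟩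
    rw [Fin.sum_univ_three]
    simp only [Matrix.cons_val_zero, Matrix.cons_val_one, Matrix.cons_val]
    omega
  · intro x hx
    rw [mem_piAntidiag] at hx
    have h := hx.1
    rw [Fin.sum_univ_three] at h
    funext i
    fin_cases i
    · rfl
    · rfl
    · simp only [Fin.reduceFinMk, Matrix.cons_val]
      omega
  · intro p hp
    rfl
  · intro x hx
    rw [mem_piAntidiag] at hx
    have h := hx.1
    rw [Fin.sum_univ_three] at h
    congr 1
    funext i
    fin_cases i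
    · rfl
    · rfl
    · simp only [Fin.reduceFinMk, Matrix.cons_val]
      omega

theorem sumT_tl (i1 i2 y1 y2 y3 a : ℕ) (h1 : y1 ≤ 11) (h2 : y2 ≤ 11) (h3 : y3 ≤ 11) (f : ℕ → ℕ) :
    sumT (tl i1 i2 y1 y2 y3 a) f = ∑ x ∈ piAntidiag (univ : Finset (Fin 3)) a,
      (y1.choose (x 0) * (y2.choose (x 1) * y3.choose (x 2))) * f (x 0 * i1 + x 1 * i2) := by
  rw [tl_eq, sumT_out, sumT_nil, add_zero, sum_fin3]
  refine sum_congr rfl fun m _ => sum_congr rfl fun n _ => ?_
  rw [cht y1 m h1, cht y2 n h2, ch_eq y3 _ h3, zero_add]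
  rfl

/-- the table with the given rows -/
def tab3 (x0 x1 x2 : Fin 3 → ℕ) : Fin 3 × Fin 3 → ℕ := fun c => ![x0, x1, x2] c.1 c.2

theorem rowS_tab3 (x0 x1 x2 : Fin 3 → ℕ) (i : Fin 3) :
    rowS (tab3 x0 x1 x2) i = ∑ j, ![x0, x1, x2] i j := rfl

theorem sum_univ33 (b : Fin 3 × Fin 3 → ℕ) : ∑ c, b c = ∑ i, rowS b i := by
  rw [Fintype.sum_prod_type]; rfl

theorem sum_tab (α : Fin 3 → ℕ) (d : ℕ) (hα : ∑ i, α i = d) (F : (Fin 3 × Fin 3 → ℕ) → ℕ) :
    ∑ b ∈ (piAntidiag (univ : Finset (Fin 3 × Fin 3)) d).filter (fun b => rowS b = α), F b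
      = ∑ x0 ∈ piAntidiag (univ : Finset (Fin 3)) (α 0),
        ∑ x1 ∈ piAntidiag (univ : Finset (Fin 3)) (α 1),
          ∑ x2 ∈ piAntidiag (univ : Finset (Fin 3)) (α 2), F (tab3 x0 x1 x2) := by
  have h : ∀ x0 : Fin 3 → ℕ, (∑ x1 ∈ piAntidiag (univ : Finset (Fin 3)) (α 1),
          ∑ x2 ∈ piAntidiag (univ : Finset (Fin 3)) (α 2), F (tab3 x0 x1 x2))
      = ∑ q ∈ piAntidiag (univ : Finset (Fin 3)) (α 1) ×ˢ piAntidiag (univ : Finset (Fin 3)) (α 2),
          F (tab3 x0 q.1 q.2) := fun x0 => by rw [sum_product]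
  simp_rw [h]
  rw [← sum_product (f := fun q : (Fin 3 → ℕ) × (Fin 3 → ℕ) × (Fin 3 → ℕ) => F (tab3 q.1 q.2.1 q.2.2))]
  refine sum_bij' (fun b _ => ((fun j => b (0, j)), (fun j => b (1, j)), (fun j => b (2, j))))
    (fun q _ => tab3 q.1 q.2.1 q.2.2) ?_ ?_ ?_ ?_ ?_
  · intro b hb
    rw [mem_filter] at hb
    have h2 := hb.2
    simp only [mem_product, mem_piAntidiag]
    exact ⟨⟨congrFun h2 0, fun _ _ => mem_univ _⟩, ⟨congrFun h2 1, fun _ _ => mem_univ _⟩,
      ⟨congrFun h2 2, fun _ _ => mem_univ _⟩⟩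
  · intro q hq
    simp only [mem_product, mem_piAntidiag] at hq
    have h2 : rowS (tab3 q.1 q.2.1 q.2.2) = α := by
      funext i
      fin_cases i
      · exact hq.1.1
      · exact hq.2.1.1
      · exact hq.2.2.1
    rw [mem_filter, mem_piAntidiag, sum_univ33, h2]
    exact ⟨⟨hα, fun _ _ => mem_univ _⟩, rfl⟩
  · intro b hb
    funext c
    obtain ⟨i, j⟩ := c
    fin_cases i <;> rfl
  · intro q hq
    rfl
  · intro b hb
    congr 1
    funext c
    obtain ⟨i, j⟩ := c
    fin_cases i <;> rfl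

theorem sum_tabs (d : ℕ) (F : (Fin 3 × Fin 3 → ℕ) → ℕ) :
    ∑ b ∈ piAntidiag (univ : Finset (Fin 3 × Fin 3)) d, F b
      = ∑ α ∈ piAntidiag (univ : Finset (Fin 3)) d, ∑ x0 ∈ piAntidiag (univ : Finset (Fin 3)) (α 0),
        ∑ x1 ∈ piAntidiag (univ : Finset (Fin 3)) (α 1),
          ∑ x2 ∈ piAntidiag (univ : Finset (Fin 3)) (α 2), F (tab3 x0 x1 x2) := by
  rw [← sum_fiberwise_of_maps_to (s := piAntidiag (univ : Finset (Fin 3 × Fin 3)) d)
    (t := piAntidiag (univ : Finset (Fin 3)) d) (g := rowS)]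
  · refine sum_congr rfl fun α hα => ?_
    rw [mem_piAntidiag] at hα
    exact sum_tab α d hα.1 F
  · intro b hb
    rw [mem_piAntidiag] at hb ⊢
    exact ⟨(sum_univ33 b).symm.trans hb.1, fun _ _ => mem_univ _⟩

/-! ### Rows -/

/-- the value of one row -/
def rowV (i1 i2 : ℕ) (y : Fin 3 × Fin 3 → ℕ) (α : Fin 3 → ℕ) (r : ℕ) : ℕ :=
  sumT (tl i1 i2 (y (0, 0)) (y (0, 1)) (y (0, 2)) (α 0)) fun e1 =>
    sumT (tl i1 i2 (y (1, 0)) (y (1, 1)) (y (1, 2)) (α 1)) fun e2 =>
      sumT (tl i1 i2 (y (2, 0)) (y (2, 1)) (y (2, 2)) (α 2)) fun e3 =>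
        Nat.mod (Nat.shiftRight r (Nat.add e1 (Nat.add e2 e3))) 18446744073709551616

theorem sumT_zero (l : List (ℕ × ℕ)) : sumT l (fun _ => 0) = 0 := by
  induction l with
  | nil => rfl
  | cons q l ih => rw [sumT_cons, ih]; simp

theorem sh0 (n : ℕ) : Nat.mod (Nat.shiftRight 0 n) 18446744073709551616 = 0 := by
  have h : Nat.shiftRight 0 n = 0 := Nat.zero_shiftRight n
  rw [h]

theorem rowV_zero (i1 i2 : ℕ) (y : Fin 3 × Fin 3 → ℕ) (α : Fin 3 → ℕ) : rowV i1 i2 y α 0 = 0 := by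
  unfold rowV
  simp only [sh0, sumT_zero]

theorem evT_eq (i1 i2 : ℕ) (rows : List RW) (y : Fin 3 × Fin 3 → ℕ) :
    evT i1 i2 rows (y (0, 0)) (y (0, 1)) (y (0, 2)) (y (1, 0)) (y (1, 1)) (y (1, 2))
      (y (2, 0)) (y (2, 1)) (y (2, 2))
      = (rows.map fun rw => rowV i1 i2 y ![rw.a, rw.b, rw.c] rw.r).sum := by
  induction rows with
  | nil => rfl
  | cons rw rows ih =>
    rw [List.map_cons, List.sum_cons, ← ih]
    have h : evT i1 i2 (rw :: rows) (y (0, 0)) (y (0, 1)) (y (0, 2)) (y (1, 0)) (y (1, 1))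
        (y (1, 2)) (y (2, 0)) (y (2, 1)) (y (2, 2))
        = cond (Nat.beq rw.r 0) (evT i1 i2 rows (y (0, 0)) (y (0, 1)) (y (0, 2)) (y (1, 0))
            (y (1, 1)) (y (1, 2)) (y (2, 0)) (y (2, 1)) (y (2, 2)))
          (Nat.add (rowV i1 i2 y ![rw.a, rw.b, rw.c] rw.r)
            (evT i1 i2 rows (y (0, 0)) (y (0, 1)) (y (0, 2)) (y (1, 0)) (y (1, 1)) (y (1, 2))
              (y (2, 0)) (y (2, 1)) (y (2, 2)))) := rfl
    rw [h]
    rcases Nat.eq_zero_or_pos rw.r with h1 | h1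
    · rw [h1, rowV_zero, zero_add]
      rfl
    · have h2 : Nat.beq rw.r 0 = false := by
        rw [Bool.eq_false_iff]
        intro h3
        exact h1.ne' (Nat.eq_of_beq_eq_true h3)
      rw [h2, cond_false]
      rfl

theorem nodup_cts (d : ℕ) : (cts d).Nodup := by
  unfold cts
  rw [List.nodup_flatMap]
  refine ⟨fun a _ => ?_, ?_⟩
  · refine List.Nodup.map ?_ List.nodup_range
    intro b b' h
    simpa using (Prod.ext_iff.mp (Prod.ext_iff.mp h).2).1
  · refine List.Nodup.pairwise_of_forall_ne List.nodup_range ?_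
    intro a _ a' _ haa t h1 h2
    rw [List.mem_map] at h1 h2
    obtain ⟨b, _, rfl⟩ := h1
    obtain ⟨b', _, h⟩ := h2
    exact haa (Prod.ext_iff.mp h).1.symm

theorem rv_eq (rows : List RW) (h : (rows.map fun rw => (rw.a, rw.b, rw.c)).Nodup) (rw : RW)
    (hr : rw ∈ rows) : rv rows ![rw.a, rw.b, rw.c] = rw.r := by
  induction rows with
  | nil => simp at hr
  | cons r0 rows ih =>
    rw [List.map_cons, List.nodup_cons] at h
    unfold rv
    rw [List.find?_cons]
    by_cases h0 : (r0.a, r0.b, r0.c) = (rw.a, rw.b, rw.c)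
    · have h1 : rw = r0 := by
        rcases List.mem_cons.mp hr with h2 | h2
        · exact h2
        · exact absurd (h0 ▸ List.mem_map_of_mem (f := fun rw : RW => (rw.a, rw.b, rw.c)) h2) h.1
      subst h1
      simp
    · have h1 : rw ∈ rows := by
        rcases List.mem_cons.mp hr with h2 | h2
        · exact absurd (by rw [h2]) h0
        · exact h2
      have h2 : (r0.a == (![rw.a, rw.b, rw.c] : Fin 3 → ℕ) 0
          && r0.b == (![rw.a, rw.b, rw.c] : Fin 3 → ℕ) 1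
          && r0.c == (![rw.a, rw.b, rw.c] : Fin 3 → ℕ) 2) = false := by
        rw [Bool.eq_false_iff]
        intro h3
        apply h0
        simpa [and_assoc] using h3
      rw [h2]
      exact ih h.2 h1

theorem lr (n : ℕ) (f : ℕ → ℕ) : ((List.range n).map f).sum = ∑ i ∈ range n, f i := by
  rw [Finset.sum, range_val, Multiset.range, Multiset.map_coe, Multiset.sum_coe]

theorem sum_cts (d : ℕ) (F : (Fin 3 → ℕ) → ℕ) :
    ((cts d).map fun t => F ![t.1, t.2.1, t.2.2]).sum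
      = ∑ α ∈ piAntidiag (univ : Finset (Fin 3)) d, F α := by
  rw [sum_fin3]
  unfold cts
  rw [List.map_flatMap, List.flatMap_def, List.sum_flatten, List.map_map, lr]
  refine sum_congr rfl fun a _ => ?_
  rw [Function.comp_apply, List.map_map, lr]
  rfl

theorem prod9 (y b : Fin 3 × Fin 3 → ℕ) : (∏ c, (y c).choose (b c))
    = ((y (0, 0)).choose (b (0, 0)) * ((y (0, 1)).choose (b (0, 1)) * (y (0, 2)).choose (b (0, 2))))
      * (((y (1, 0)).choose (b (1, 0)) * ((y (1, 1)).choose (b (1, 1)) * (y (1, 2)).choose (b (1, 2))))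
      * ((y (2, 0)).choose (b (2, 0)) * ((y (2, 1)).choose (b (2, 1))
        * (y (2, 2)).choose (b (2, 2))))) := by
  rw [Fintype.prod_prod_type]
  simp only [Fin.prod_univ_three]
  ring

theorem rowV_eq (d : ℕ) (y : Fin 3 × Fin 3 → ℕ) (hy : ∀ c, y c ≤ 11) (α : Fin 3 → ℕ) (r : ℕ) :
    rowV (Nat.mul 64 (Nat.succ d)) 64 y α r
      = ∑ x0 ∈ piAntidiag (univ : Finset (Fin 3)) (α 0),
        ∑ x1 ∈ piAntidiag (univ : Finset (Fin 3)) (α 1),
          ∑ x2 ∈ piAntidiag (univ : Finset (Fin 3)) (α 2),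
            (∏ c, (y c).choose (tab3 x0 x1 x2 c))
              * d64 r ((d + 1) * colS (tab3 x0 x1 x2) 0 + colS (tab3 x0 x1 x2) 1) := by
  unfold rowV
  rw [sumT_tl _ _ _ _ _ _ (hy _) (hy _) (hy _)]
  refine sum_congr rfl fun x0 _ => ?_
  rw [sumT_tl _ _ _ _ _ _ (hy _) (hy _) (hy _), mul_sum]
  refine sum_congr rfl fun x1 _ => ?_
  rw [sumT_tl _ _ _ _ _ _ (hy _) (hy _) (hy _), mul_sum, mul_sum]
  refine sum_congr rfl fun x2 _ => ?_
  rw [prod9]
  have h : Nat.add (x0 0 * Nat.mul 64 (Nat.succ d) + x0 1 * 64)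
      (Nat.add (x1 0 * Nat.mul 64 (Nat.succ d) + x1 1 * 64)
        (x2 0 * Nat.mul 64 (Nat.succ d) + x2 1 * 64))
      = Nat.mul 64 ((d + 1) * colS (tab3 x0 x1 x2) 0 + colS (tab3 x0 x1 x2) 1) := by
    have h0 : colS (tab3 x0 x1 x2) 0 = x0 0 + x1 0 + x2 0 := Fin.sum_univ_three _
    have h1 : colS (tab3 x0 x1 x2) 1 = x0 1 + x1 1 + x2 1 := Fin.sum_univ_three _
    rw [h0, h1]
    simp only [Nat.add_eq, Nat.mul_eq, Nat.succ_eq_add_one]
    ring
  rw [h]
  unfold d64
  simp only [tab3, Matrix.cons_val_zero, Matrix.cons_val_one, Matrix.cons_val]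
  ring

/-- **Module EVT.** -/
theorem evt : EvtStatement := by
  intro d rows y hrows hy
  have hnd : (rows.map fun rw => (rw.a, rw.b, rw.c)).Nodup := by rw [hrows]; exact nodup_cts d
  rw [evT_eq]
  have h1 : (rows.map fun rw => rowV (Nat.mul 64 (Nat.succ d)) 64 y ![rw.a, rw.b, rw.c] rw.r)
      = (cts d).map fun t => rowV (Nat.mul 64 (Nat.succ d)) 64 y ![t.1, t.2.1, t.2.2]
          (rv rows ![t.1, t.2.1, t.2.2]) := by
    rw [← hrows, List.map_map]
    refine List.map_congr_left fun rw hr => ?_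
    rw [Function.comp_apply, rv_eq rows hnd rw hr]
  rw [h1, sum_cts d fun α => rowV (Nat.mul 64 (Nat.succ d)) 64 y α (rv rows α), sum_tabs]
  refine sum_congr rfl fun α _ => ?_
  rw [rowV_eq d y hy]
  refine sum_congr rfl fun x0 h0 => sum_congr rfl fun x1 h1 => sum_congr rfl fun x2 h2 => ?_
  have h : rowS (tab3 x0 x1 x2) = α := by
    rw [mem_piAntidiag] at h0 h1 h2
    funext i
    fin_cases i
    · exact h0.1
    · exact h1.1
    · exact h2.1
  rw [h]

end A602.S6.H50
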